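import Pool.Agent.Lib.MP_f99ede_an.Cont.Family

/-! Continuum many complemented subspaces of `L₁[0,1]` with the Schur property, none of which embeds
in another or in `ℓ₁`, or contains `L₁[0,1]`. -/

namespace Pool.Agent.Results.MP_f99ede_an.Continuum

open MeasureTheory

/-- The real space `L₁[0,1]`. -/
abbrev L1 : Type := Lp ℝ 1 (volume.restrict (Set.Icc (0 : ℝ) 1))

/-- The real space `ℓ₁`. -/
abbrev l1 : Type := lp (fun _ : ℕ => ℝ) 1

/-- There is a bounded linear bijection from `E` to `F`. -/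
def Iso (E F : Type) [NormedAddCommGroup E] [NormedSpace ℝ E] [NormedAddCommGroup F]
    [NormedSpace ℝ F] : Prop :=
  ∃ T : E →L[ℝ] F, Function.Bijective T

/-- `F` contains an isomorphic copy of `E`: a bounded linear map from `E` to `F` is bounded
below. -/
def Embeds (E F : Type) [NormedAddCommGroup E] [NormedSpace ℝ E] [NormedAddCommGroup F]
    [NormedSpace ℝ F] : Prop :=
  ∃ (T : E →L[ℝ] F) (c : ℝ), 0 < c ∧ ∀ x, c * ‖x‖ ≤ ‖T x‖

/-- `E` has the Schur property: every weakly null sequence tends to zero in norm. -/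
def Schur (E : Type) [NormedAddCommGroup E] [NormedSpace ℝ E] : Prop :=
  ∀ x : ℕ → E, (∀ φ : E →L[ℝ] ℝ, Filter.Tendsto (fun j => φ (x j)) Filter.atTop (nhds 0)) →
    Filter.Tendsto x Filter.atTop (nhds 0)

open Pool.Agent.Lib.MP_f99ede_an in
theorem result : ∃ X : ℝ → Submodule ℝ L1,
    (∀ s, (∃ P : L1 →L[ℝ] L1, (∀ f, P (P f) = P f) ∧ Set.range P = X s) ∧
      IsClosed (X s : Set L1) ∧ ¬FiniteDimensional ℝ (X s) ∧ ¬Iso (X s) L1 ∧ ¬Iso (X s) l1 ∧
      ¬Embeds L1 (X s) ∧ ¬Embeds (X s) l1 ∧ Schur (X s)) ∧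
    ∀ s t, s ≠ t → ¬Embeds (X s) (X t) ∧ ¬Iso (X s) (X t) := by
  obtain ⟨X, h1, h2⟩ := Cont.family
  have eq : ∀ (A B : Type) [NormedAddCommGroup A] [NormedSpace ℝ A] [NormedAddCommGroup B]
      [NormedSpace ℝ B] [CompleteSpace A] [CompleteSpace B], Iso A B → Nonempty (A ≃L[ℝ] B) := by
    rintro A B _ _ _ _ _ _ ⟨T, hT⟩
    exact ⟨ContinuousLinearEquiv.ofBijective T (LinearMap.ker_eq_bot.2 hT.1)
      (LinearMap.range_eq_top.2 hT.2)⟩
  have hc : ∀ s, CompleteSpace (X s) := fun s => by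
    obtain ⟨⟨P, k1, k2⟩, -⟩ := h1 s
    rw [← k2]
    exact range_complete k1
  refine ⟨X, fun s => ?_, fun s t h => ⟨h2 s t h, fun k => ?_⟩⟩
  · obtain ⟨⟨P, k1, k2⟩, k3, k4, k5⟩ := h1 s
    have := hc s
    exact ⟨⟨P, k1, by rw [← k2]; rfl⟩, (completeSpace_coe_iff_isComplete.1 (hc s)).isClosed,
      fun _ => k4 (Cont.emd_of_finite _),
      fun h => (eq _ _ h).elim fun i => k3 (Unc.Emd.of_equiv i.symm),
      fun h => (eq _ _ h).elim fun i => k4 (Unc.Emd.of_equiv i), k3, k4, k5⟩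
  · have := hc s
    have := hc t
    exact (eq _ _ k).elim fun i => h2 s t h (Unc.Emd.of_equiv i)

end Pool.Agent.Results.MP_f99ede_an.Continuum
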