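import Pool.Agent.Lib.MP_f99ede_an.Core6
import Pool.Agent.Lib.MP_f99ede_an.Defs2

set_option autoImplicit false

namespace Pool.Agent.Results.MP_f99ede_an.NearRepresentable

open MeasureTheory Pool.Agent.Lib.MP_f99ede_an

/-- Let `P` be a bounded projection on `L₁[0,1]` whose distance to some representable operator `R`
is at most `1 + 10⁻⁶`.  If the range of `P` is infinite-dimensional, it is isomorphic to `L₁[0,1]`
or to `ℓ₁`. -/
theorem result :
    ∀ (X : Submodule ℝ L01) (P R : Op L01), IsProjectionOnto P X → IsRepresentable R →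
      opDist P R ≤ 1 + 1 / 10 ^ 6 → ¬ FiniteDimensional ℝ X →
      IsomorphicTo X L01 ∨ IsomorphicTo X ell1 := by
  rintro X P R ⟨h1, h2⟩ ⟨g, hg, hR⟩ hn hX
  have e : P.range = X := by
    refine le_antisymm ?_ fun x hx => ⟨x, h2 x hx⟩
    rintro _ ⟨y, rfl⟩
    exact h1 y
  subst e
  exact near_representable P R (fun x => h2 _ (h1 x)) g hg hR hn hX

end Pool.Agent.Results.MP_f99ede_an.NearRepresentable
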