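import Pool.Agent.Lib.MP_f99ede_an.Unc.Family

/-! Uncountably many pairwise non-isomorphic complemented subspaces of `L₁[0,1]`, none isomorphic
to `L₁[0,1]` or to `ℓ₁`; a separable space without a copy of `L₁[0,1]` contains only countably many
of them. -/

namespace Pool.Agent.Results.MP_f99ede_an.UncountablyMany

open MeasureTheory

/-- The real space `L₁[0,1]`. -/
abbrev L1 : Type := Lp ℝ 1 (volume.restrict (Set.Icc (0 : ℝ) 1))

/-- The real space `ℓ₁`. -/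
abbrev l1 : Type := lp (fun _ : ℕ => ℝ) 1

/-- There is a bounded linear bijection from `E` to `F`. -/
def Iso (E F : Type) [NormedAddCommGroup E] [NormedSpace ℝ E] [NormedAddCommGroup F]
    [NormedSpace ℝ F] : Prop :=
  ∃ T : E →L[ℝ] F, Function.Bijective T

/-- `F` contains an isomorphic copy of `E`: a bounded linear map from `E` to `F` is bounded
below. -/
def Embeds (E F : Type) [NormedAddCommGroup E] [NormedSpace ℝ E] [NormedAddCommGroup F]
    [NormedSpace ℝ F] : Prop :=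
  ∃ (T : E →L[ℝ] F) (c : ℝ), 0 < c ∧ ∀ x, c * ‖x‖ ≤ ‖T x‖

/-- `E` fails the Schur property: it has a weakly null sequence whose norms stay above a positive
constant. -/
def NotSchur (E : Type) [NormedAddCommGroup E] [NormedSpace ℝ E] : Prop :=
  ∃ (x : ℕ → E) (c : ℝ), 0 < c ∧ (∀ j, c ≤ ‖x j‖) ∧
    ∀ φ : E →L[ℝ] ℝ, Filter.Tendsto (fun j => φ (x j)) Filter.atTop (nhds 0)

open Pool.Agent.Lib.MP_f99ede_an in
theorem result : ∃ F : Set (Submodule ℝ L1), ¬F.Countable ∧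
    (∀ X ∈ F, (∃ P : L1 →L[ℝ] L1, (∀ f, P (P f) = P f) ∧ Set.range P = X) ∧
      IsClosed (X : Set L1) ∧ ¬FiniteDimensional ℝ X ∧ ¬Iso X L1 ∧ ¬Iso X l1 ∧
      ¬Embeds L1 X ∧ ¬Embeds X l1 ∧ NotSchur X) ∧
    (∀ X ∈ F, ∀ Y ∈ F, X ≠ Y → ¬Iso X Y) ∧
    ∀ (Z : Type) [NormedAddCommGroup Z] [NormedSpace ℝ Z] [CompleteSpace Z]
      [TopologicalSpace.SeparableSpace Z], ¬Embeds L1 Z → {X ∈ F | Embeds X Z}.Countable := by
  obtain ⟨F, h1, h2, h3, h4⟩ := Unc.family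
  have eq : ∀ (A B : Type) [NormedAddCommGroup A] [NormedSpace ℝ A] [NormedAddCommGroup B]
      [NormedSpace ℝ B] [CompleteSpace A] [CompleteSpace B], Iso A B → Nonempty (A ≃L[ℝ] B) := by
    rintro A B _ _ _ _ _ _ ⟨T, hT⟩
    exact ⟨ContinuousLinearEquiv.ofBijective T (LinearMap.ker_eq_bot.2 hT.1)
      (LinearMap.range_eq_top.2 hT.2)⟩
  refine ⟨F, h1, fun X hX => ?_, fun X hX Y hY hne h => ?_, h4⟩
  · have hc := (h2 X hX).complete
    obtain ⟨⟨P, k1, k2⟩, k3, k4, k5, k6⟩ := h2 X hX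
    have k7 : ¬Embeds L1 X := fun ⟨T, c, a, b⟩ => k4 T c a b
    have k8 : ¬Embeds X l1 := fun ⟨T, c, a, b⟩ => k5 T c a b
    exact ⟨⟨P, k1, by rw [← k2]; rfl⟩, (completeSpace_coe_iff_isComplete.1 hc).isClosed, k3,
      fun h => (eq _ _ h).elim fun i => k7 (Unc.Emd.of_equiv i.symm),
      fun h => (eq _ _ h).elim fun i => k8 (Unc.Emd.of_equiv i), k7, k8, k6⟩
  · have := (h2 X hX).complete
    have := (h2 Y hY).complete
    exact h3 X hX Y hY hne (eq _ _ h)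

end Pool.Agent.Results.MP_f99ede_an.UncountablyMany
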